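import Pool.Agent.Helper73.HB.Sylv

/-! # Lower bound for `Bᵀ S⁻¹ B` by a matrix (HC-1)

`S` is positive definite, `S² = B Bᵀ + ε`, `ε > 0`, `P` is positive semidefinite and `|P v| ≤ |B v|` for all `v`.
With the positive definite square root `T` of `Bᵀ B + ε` one has `Bᵀ S⁻¹ B = T - ε T⁻¹` (as in HB-4), `P ≤ T`
(Loewner) and `√ε T⁻¹ ≤ 1`, so `Bᵀ S⁻¹ B ≥ P - √ε`. -/

namespace Pool.Agent.Helper73.HC

open Matrix Pool.Agent.Helper73.HB

variable {N n : ℕ}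

open scoped MatrixOrder in
private theorem low_trace {G K : Matrix (Fin n) (Fin n) ℝ} (hG : G.PosSemidef)
    (hK : K.PosSemidef) : 0 ≤ (G * K).trace := by
  obtain ⟨C, rfl⟩ := CStarAlgebra.nonneg_iff_eq_star_mul_self.mp hK.nonneg
  have h := (hG.mul_mul_conjTranspose_same C).trace_nonneg
  rw [Matrix.mul_assoc, Matrix.trace_mul_comm, Matrix.mul_assoc] at h
  rw [star_eq_conjTranspose]
  exact h

private theorem low_cancel {G P : Matrix (Fin n) (Fin n) ℝ} (hP : P.PosDef)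
    (hc : P * G = G * P) (hM : (G * P).PosSemidef) : G.PosSemidef := by
  obtain ⟨Q, hQ, hQQ⟩ := exists_sqrt hP
  have h1 : Q * G = G * Q := sqrt_intertwine hQ hQ (by rw [hQQ, hc])
  have hQu : IsUnit Q.det := hQ.det_pos.ne'.isUnit
  have h2 : G * P = Q * G * Q := by rw [← hQQ, ← Matrix.mul_assoc, ← h1]
  have hQh : (Q⁻¹)ᴴ = Q⁻¹ := by rw [Matrix.conjTranspose_nonsing_inv, hQ.isHermitian.eq]
  have h3 : G = Q⁻¹ * (G * P) * (Q⁻¹)ᴴ := by
    rw [hQh, h2]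
    calc G = (Q⁻¹ * Q) * G * (Q * Q⁻¹) := by
          rw [Matrix.nonsing_inv_mul _ hQu, Matrix.mul_nonsing_inv _ hQu, Matrix.one_mul,
            Matrix.mul_one]
      _ = Q⁻¹ * (Q * G * Q) * Q⁻¹ := by simp only [Matrix.mul_assoc]
  rw [h3]
  exact hM.mul_mul_conjTranspose_same Q⁻¹

/-- Loewner: if `|P v| ≤ |T v|` for all `v` and `T` is positive definite then `P ≤ T`. -/
theorem loewner {P T : Matrix (Fin n) (Fin n) ℝ} (hP : P.PosSemidef) (hT : T.PosDef)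
    (h : ∀ v : Fin n → ℝ, (P *ᵥ v) ⬝ᵥ (P *ᵥ v) ≤ (T *ᵥ v) ⬝ᵥ (T *ᵥ v)) :
    (T - P).PosSemidef := by
  have hH : (T - P).IsHermitian := hT.isHermitian.sub hP.isHermitian
  rw [hH.posSemidef_iff_eigenvalues_nonneg]
  intro j
  show 0 ≤ hH.eigenvalues j
  by_contra hneg
  push Not at hneg
  set μ : ℝ := hH.eigenvalues j with hμ
  obtain ⟨v, hv0, hv⟩ : ∃ v : Fin n → ℝ, v ≠ 0 ∧ (T - P) *ᵥ v = μ • v := by
    refine ⟨⇑(hH.eigenvectorBasis j), ?_, hH.mulVec_eigenvectorBasis j⟩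
    intro h0
    have h1 := (hH.eigenvectorBasis).orthonormal.ne_zero j
    apply h1
    ext i
    exact congrFun h0 i
  have hPv : P *ᵥ v = T *ᵥ v - μ • v := by
    rw [Matrix.sub_mulVec] at hv
    rw [← hv]
    abel
  have h1 := h v
  rw [hPv] at h1
  have hTv : 0 < v ⬝ᵥ (T *ᵥ v) := by
    have := hT.dotProduct_mulVec_pos hv0
    simpa using this
  have hvv : 0 ≤ v ⬝ᵥ v := by
    simp only [dotProduct]
    exact Finset.sum_nonneg fun i _ => mul_self_nonneg _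
  have h2 : (T *ᵥ v - μ • v) ⬝ᵥ (T *ᵥ v - μ • v) =
      (T *ᵥ v) ⬝ᵥ (T *ᵥ v) - 2 * μ * (v ⬝ᵥ (T *ᵥ v)) + μ ^ 2 * (v ⬝ᵥ v) := by
    rw [sub_dotProduct, dotProduct_sub, dotProduct_sub, smul_dotProduct, dotProduct_smul,
      smul_dotProduct, dotProduct_smul, dotProduct_comm (T *ᵥ v) v]
    simp only [smul_eq_mul]
    ring
  rw [h2] at h1
  have h3 : 0 < -μ * (v ⬝ᵥ (T *ᵥ v)) := mul_pos (by linarith) hTv
  have h4 : 0 ≤ μ ^ 2 * (v ⬝ᵥ v) := mul_nonneg (sq_nonneg _) hvv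
  linarith

theorem alg_low {S : Matrix (Fin N) (Fin N) ℝ} {B : Matrix (Fin N) (Fin n) ℝ}
    {K P : Matrix (Fin n) (Fin n) ℝ} {ε : ℝ} (hε : 0 < ε) (hP : P.PosSemidef) (hS : S.PosDef)
    (hSS : S * S = B * Bᵀ + ε • (1 : Matrix (Fin N) (Fin N) ℝ)) (hK : K.PosSemidef)
    (hB : ∀ v : Fin n → ℝ, (P *ᵥ v) ⬝ᵥ (P *ᵥ v) ≤ (B *ᵥ v) ⬝ᵥ (B *ᵥ v)) :
    (P * K).trace - Real.sqrt ε * K.trace ≤ (S⁻¹ * (B * K * Bᵀ)).trace := by
  have hA : (Bᵀ * B).PosSemidef := by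
    have := posSemidef_conjTranspose_mul_self B
    rwa [conjTranspose_eq_transpose_of_trivial] at this
  have h1p : ∀ c : ℝ, 0 < c → (c • (1 : Matrix (Fin n) (Fin n) ℝ)).PosDef := fun c hc =>
    Matrix.PosDef.one.smul hc
  obtain ⟨T, hT, hTT⟩ := exists_sqrt (Matrix.PosDef.posSemidef_add hA (h1p ε hε))
  set m : ℝ := Real.sqrt ε with hm
  have hm0 : 0 < m := Real.sqrt_pos.2 hε
  have hm2 : m * m = ε := Real.mul_self_sqrt hε.le
  have hTu : IsUnit T.det := hT.det_pos.ne'.isUnit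
  have hSu : IsUnit S.det := hS.det_pos.ne'.isUnit
  have hint : S * B = B * T := by
    refine sqrt_intertwine hS hT ?_
    rw [hSS, hTT, Matrix.add_mul, Matrix.mul_add, Matrix.mul_assoc, Matrix.smul_mul,
      Matrix.mul_smul, Matrix.one_mul, Matrix.mul_one]
  have hinv : S⁻¹ * B = B * T⁻¹ := by
    calc S⁻¹ * B = S⁻¹ * B * (T * T⁻¹) := by rw [Matrix.mul_nonsing_inv _ hTu, Matrix.mul_one]
      _ = S⁻¹ * (B * T) * T⁻¹ := by simp only [Matrix.mul_assoc]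
      _ = S⁻¹ * (S * B) * T⁻¹ := by rw [hint]
      _ = (S⁻¹ * S) * B * T⁻¹ := by simp only [Matrix.mul_assoc]
      _ = B * T⁻¹ := by rw [Matrix.nonsing_inv_mul _ hSu, Matrix.one_mul]
  -- `T - m` is positive semidefinite
  have hG1 : (T - m • (1 : Matrix (Fin n) (Fin n) ℝ)).PosSemidef := by
    refine low_cancel (P := T + m • (1 : Matrix (Fin n) (Fin n) ℝ)) (hT.add (h1p m hm0)) ?_ ?_
    · simp only [Matrix.add_mul, Matrix.mul_sub, Matrix.sub_mul, Matrix.mul_add, Matrix.smul_mul,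
        Matrix.mul_smul, Matrix.one_mul, Matrix.mul_one, smul_add, smul_sub, smul_smul]
      abel
    · have e : (T - m • (1 : Matrix (Fin n) (Fin n) ℝ)) * (T + m • (1 : Matrix (Fin n) (Fin n) ℝ)) =
          Bᵀ * B := by
        have e1 : (T - m • (1 : Matrix (Fin n) (Fin n) ℝ)) *
            (T + m • (1 : Matrix (Fin n) (Fin n) ℝ)) =
            T * T - (m * m) • (1 : Matrix (Fin n) (Fin n) ℝ) := by
          simp only [Matrix.mul_add, Matrix.sub_mul, Matrix.smul_mul,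
            Matrix.mul_smul, Matrix.one_mul, Matrix.mul_one, smul_sub, smul_smul]
          abel
        rw [e1, hTT, hm2]
        abel
      rw [e]
      exact hA
  have hG2 : (1 - m • T⁻¹).PosSemidef := by
    have e1 : T * (1 - m • T⁻¹) = T - m • (1 : Matrix (Fin n) (Fin n) ℝ) := by
      rw [Matrix.mul_sub, Matrix.mul_one, Matrix.mul_smul, Matrix.mul_nonsing_inv _ hTu]
    have e2 : (1 - m • T⁻¹) * T = T - m • (1 : Matrix (Fin n) (Fin n) ℝ) := by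
      rw [Matrix.sub_mul, Matrix.one_mul, Matrix.smul_mul, Matrix.nonsing_inv_mul _ hTu]
    refine low_cancel hT (by rw [e1, e2]) ?_
    rw [e2]
    exact hG1
  have hG3 : (T - P).PosSemidef := by
    refine loewner hP hT fun v => (hB v).trans ?_
    have e1 : (T *ᵥ v) ⬝ᵥ (T *ᵥ v) = v ⬝ᵥ ((T * T) *ᵥ v) := by
      rw [← Matrix.mulVec_mulVec, Matrix.dotProduct_mulVec v T, ← Matrix.mulVec_transpose]
      congr 1
      have : Tᵀ = T := by
        have h := hT.isHermitian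
        rwa [Matrix.IsHermitian, conjTranspose_eq_transpose_of_trivial] at h
      rw [this]
    have e2 : v ⬝ᵥ Bᵀ *ᵥ B *ᵥ v = (B *ᵥ v) ⬝ᵥ (B *ᵥ v) := by
      rw [Matrix.dotProduct_mulVec, Matrix.vecMul_transpose]
    rw [e1, hTT, Matrix.add_mulVec, dotProduct_add, ← Matrix.mulVec_mulVec, e2,
      Matrix.smul_mulVec, Matrix.one_mulVec, dotProduct_smul, smul_eq_mul]
    have hvv : 0 ≤ v ⬝ᵥ v := by
      simp only [dotProduct]
      exact Finset.sum_nonneg fun i _ => mul_self_nonneg _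
    have := mul_nonneg hε.le hvv
    linarith
  have htr : (S⁻¹ * (B * K * Bᵀ)).trace = ((T - ε • T⁻¹) * K).trace := by
    have e1 : Bᵀ * B = T * T - ε • (1 : Matrix (Fin n) (Fin n) ℝ) := by rw [hTT]; abel
    have e2 : Bᵀ * (B * T⁻¹) = T - ε • T⁻¹ := by
      rw [← Matrix.mul_assoc, e1, Matrix.sub_mul, Matrix.mul_assoc,
        Matrix.mul_nonsing_inv _ hTu, Matrix.mul_one, Matrix.smul_mul, Matrix.one_mul]
    have e3 : S⁻¹ * (B * K * Bᵀ) = S⁻¹ * B * K * Bᵀ := by simp only [Matrix.mul_assoc]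
    rw [e3, Matrix.trace_mul_comm, hinv, ← Matrix.mul_assoc, e2]
  have hdec : (T - ε • T⁻¹) * K = P * K - m • K + (T - P) * K + m • ((1 - m • T⁻¹) * K) := by
    have e1 : T - ε • T⁻¹ = P - m • (1 : Matrix (Fin n) (Fin n) ℝ) + (T - P) +
        m • (1 - m • T⁻¹) := by
      rw [smul_sub, smul_smul, hm2]
      abel
    rw [e1, Matrix.add_mul, Matrix.add_mul, Matrix.sub_mul P, Matrix.smul_mul, Matrix.smul_mul,
      Matrix.one_mul]
  have t1 := low_trace hG3 hK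
  have t2 := low_trace hG2 hK
  rw [htr, hdec, Matrix.trace_add, Matrix.trace_add, Matrix.trace_sub, Matrix.trace_smul,
    Matrix.trace_smul, smul_eq_mul, smul_eq_mul]
  have t3 : 0 ≤ m * ((1 - m • T⁻¹) * K).trace := mul_nonneg (by positivity) t2
  linarith

end Pool.Agent.Helper73.HC
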