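import Pool.Agent.Helper73.HB.Point
import Pool.Agent.Helper73.HC.Low

/-! # Pointwise lower bound with a matrix weight (HC-2)

At one point `p`: `E` is the square root of `(G p)⁻¹`, `F = E⁻¹`, `P' = F P F`, `B = Bm E u p`,
`K = ½ (R + Rᵀ) + λ`, `R = Rm E G p = E Ric E`. The hypothesis on `P` for the covector `ξ = F v`
is `|P' v| ≤ |B v|`; `tr (P' K) = Σ_ij P_ij (Ric_ij + λ G_ij)`. -/

namespace Pool.Agent.Helper73.HC

open scoped ContDiff Topology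
open Pool.Agent.Helper49.Ric Pool.Agent.Helper73.HB MeasureTheory Filter Matrix

noncomputable section

variable {n N : ℕ} {U : Set (Fin n → ℝ)} {G : (Fin n → ℝ) → Matrix (Fin n) (Fin n) ℝ}
  {p : Fin n → ℝ} {u : Fin N → (Fin n → ℝ) → ℝ} {S : Matrix (Fin N) (Fin N) ℝ}
  {ε lam : ℝ} {P : Matrix (Fin n) (Fin n) ℝ}

private theorem pt_frame (hG : IsMetricOn U G) (hp : p ∈ U) :
    ∃ E : Matrix (Fin n) (Fin n) ℝ, E.PosDef ∧ E * E = (G p)⁻¹ :=
  exists_sqrt (inv_posDef hG hp)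

private theorem pt_symm {m : ℕ} {E : Matrix (Fin m) (Fin m) ℝ} (hE : E.PosDef) (i j : Fin m) :
    E i j = E j i := by
  have h := hE.isHermitian.apply i j
  simpa using h.symm

private theorem pt_inv_symm {m : ℕ} {E : Matrix (Fin m) (Fin m) ℝ} (hE : E.PosDef)
    (i j : Fin m) : E⁻¹ i j = E⁻¹ j i := pt_symm hE.inv i j

private theorem pt_dot {m : ℕ} (A : Matrix (Fin m) (Fin m) ℝ) (ξ : Fin m → ℝ) :
    ξ ⬝ᵥ (A *ᵥ ξ) = ∑ i, ∑ j, A i j * ξ i * ξ j := by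
  simp only [dotProduct, mulVec, Finset.mul_sum]
  refine Finset.sum_congr rfl fun i _ => Finset.sum_congr rfl fun j _ => ?_
  ring

private theorem pt_trace {S M : Matrix (Fin N) (Fin N) ℝ} (hS : S.PosDef) :
    ∑ a, ∑ b, S⁻¹ a b * M a b = (S⁻¹ * M).trace := by
  rw [Matrix.trace, Finset.sum_comm]
  refine Finset.sum_congr rfl fun b _ => ?_
  rw [Matrix.diag_apply, Matrix.mul_apply]
  refine Finset.sum_congr rfl fun a _ => ?_
  rw [pt_inv_symm hS]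

private theorem pt_SS {E : Matrix (Fin n) (Fin n) ℝ} (hE : E.PosDef)
    (hEE : E * E = (G p)⁻¹)
    (hSS : ∀ a b, (S * S) a b = ip G (u a) (u b) p + if a = b then ε else 0) :
    S * S = Bm E u p * (Bm E u p)ᵀ + ε • (1 : Matrix (Fin N) (Fin N) ℝ) := by
  ext a b
  rw [hSS, Matrix.add_apply, frame_ip hE hEE, Matrix.smul_apply, Matrix.one_apply]
  split_ifs <;> simp

/-- the symmetrised Ricci form plus `lam` in the frame is positive semidefinite -/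
private theorem pt_K (hG : IsMetricOn U G) (hp : p ∈ U) {E : Matrix (Fin n) (Fin n) ℝ}
    (hE : E.PosDef) (hEE : E * E = (G p)⁻¹)
    (hRic : ∀ v : Fin n → ℝ, -lam * ∑ i, ∑ j, G p i j * v i * v j ≤
      ∑ i, ∑ j, ricci G i j p * v i * v j) :
    ((1 / 2 : ℝ) • (Rm E G p + (Rm E G p)ᵀ) + lam • (1 : Matrix (Fin n) (Fin n) ℝ)).PosSemidef := by
  have hEt : Eᵀ = E := by
    ext i j
    rw [Matrix.transpose_apply, pt_symm hE]
  refine Matrix.PosSemidef.of_dotProduct_mulVec_nonneg ?_ ?_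
  · rw [Matrix.IsHermitian, conjTranspose_eq_transpose_of_trivial]
    simp [add_comm]
  · intro v
    have hst : star v = v := by ext i; simp
    rw [hst]
    have h1 : v ⬝ᵥ ((Rm E G p)ᵀ *ᵥ v) = v ⬝ᵥ (Rm E G p *ᵥ v) := by
      rw [Matrix.mulVec_transpose, dotProduct_comm, Matrix.dotProduct_mulVec]
    have h2 : v ⬝ᵥ (Rm E G p *ᵥ v) =
        (E *ᵥ v) ⬝ᵥ ((Matrix.of fun i j => ricci G i j p) *ᵥ (E *ᵥ v)) := by
      unfold Rm
      rw [← Matrix.mulVec_mulVec, ← Matrix.mulVec_mulVec, Matrix.dotProduct_mulVec,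
        ← Matrix.mulVec_transpose, hEt]
    have h3 : (E *ᵥ v) ⬝ᵥ (G p *ᵥ (E *ᵥ v)) = v ⬝ᵥ v := by
      have h4 : (E *ᵥ v) ⬝ᵥ (G p *ᵥ (E *ᵥ v)) = v ⬝ᵥ ((E * G p * E) *ᵥ v) := by
        rw [← Matrix.mulVec_mulVec, ← Matrix.mulVec_mulVec, Matrix.dotProduct_mulVec v E,
          ← Matrix.mulVec_transpose, hEt]
      rw [h4, frame_metric hG hp hE hEE, Matrix.one_mulVec]
    have h5 := hRic (E *ᵥ v)
    have h6 := pt_dot (G p) (E *ᵥ v)
    have h7 := pt_dot (Matrix.of fun i j => ricci G i j p) (E *ᵥ v)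
    simp only [Matrix.of_apply] at h7
    rw [← h6, ← h7, h3, ← h2] at h5
    rw [Matrix.add_mulVec, Matrix.smul_mulVec, Matrix.add_mulVec, Matrix.smul_mulVec,
      Matrix.one_mulVec, dotProduct_add, dotProduct_smul, dotProduct_add, dotProduct_smul, h1,
      smul_eq_mul, smul_eq_mul]
    linarith

private theorem pt_Ktrace {E : Matrix (Fin n) (Fin n) ℝ} (hE : E.PosDef)
    (hEE : E * E = (G p)⁻¹) :
    ((1 / 2 : ℝ) • (Rm E G p + (Rm E G p)ᵀ) + lam • (1 : Matrix (Fin n) (Fin n) ℝ)).trace =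
      scal G p + n * lam := by
  rw [Matrix.trace_add, Matrix.trace_smul, Matrix.trace_add, Matrix.trace_transpose,
    frame_scal hE hEE, Matrix.trace_smul, Matrix.trace_one, Fintype.card_fin, smul_eq_mul,
    smul_eq_mul]
  ring

/-- the trace against the weight -/
private theorem pt_PK (hG : IsMetricOn U G) (hp : p ∈ U) {E : Matrix (Fin n) (Fin n) ℝ}
    (hE : E.PosDef) (hEE : E * E = (G p)⁻¹) (hP : Pᵀ = P) :
    ((E⁻¹ * P * E⁻¹) * ((1 / 2 : ℝ) • (Rm E G p + (Rm E G p)ᵀ) +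
      lam • (1 : Matrix (Fin n) (Fin n) ℝ))).trace =
      ∑ i, ∑ j, P i j * (ricci G i j p + lam * G p i j) := by
  have hEu : IsUnit E.det := hE.det_pos.ne'.isUnit
  have hEt : Eᵀ = E := E_symm hE
  have hFt : (E⁻¹)ᵀ = E⁻¹ := E_symm hE.inv
  have hGF : G p = E⁻¹ * E⁻¹ := by
    rw [← Matrix.mul_inv_rev, hEE, Matrix.nonsing_inv_nonsing_inv _ (det_pos hG hp).ne'.isUnit]
  have h1 : ((E⁻¹ * P * E⁻¹) * Rm E G p).trace =
      (P * Matrix.of (fun i j => ricci G i j p)).trace := by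
    have e1 : (E⁻¹ * P * E⁻¹) * Rm E G p =
        E⁻¹ * (P * Matrix.of (fun i j => ricci G i j p) * E) := by
      unfold Rm
      calc (E⁻¹ * P * E⁻¹) * (E * Matrix.of (fun i j => ricci G i j p) * E)
          = E⁻¹ * (P * (E⁻¹ * E) * Matrix.of (fun i j => ricci G i j p) * E) := by
            simp only [Matrix.mul_assoc]
        _ = E⁻¹ * (P * Matrix.of (fun i j => ricci G i j p) * E) := by
            rw [Matrix.nonsing_inv_mul _ hEu, Matrix.mul_one]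
    rw [e1, Matrix.trace_mul_comm, Matrix.mul_assoc, Matrix.mul_nonsing_inv _ hEu,
      Matrix.mul_one]
  have h2 : ((E⁻¹ * P * E⁻¹) * (Rm E G p)ᵀ).trace = ((E⁻¹ * P * E⁻¹) * Rm E G p).trace := by
    have e2 : (E⁻¹ * P * E⁻¹)ᵀ = E⁻¹ * P * E⁻¹ := by
      rw [Matrix.transpose_mul, Matrix.transpose_mul, hFt, hP, Matrix.mul_assoc]
    rw [← Matrix.trace_transpose, Matrix.transpose_mul, Matrix.transpose_transpose, e2,
      Matrix.trace_mul_comm]
  have h3 : (E⁻¹ * P * E⁻¹).trace = (P * G p).trace := by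
    rw [Matrix.mul_assoc, Matrix.trace_mul_comm, Matrix.mul_assoc, ← hGF]
  have hPs : ∀ i j, P i j = P j i := fun i j => by
    conv_lhs => rw [← hP]
    rfl
  have h4 : (P * Matrix.of (fun i j => ricci G i j p)).trace =
      ∑ i, ∑ j, P i j * ricci G i j p := by
    rw [Matrix.trace, Finset.sum_comm]
    refine Finset.sum_congr rfl fun i _ => ?_
    rw [Matrix.diag_apply, Matrix.mul_apply]
    refine Finset.sum_congr rfl fun j _ => ?_
    rw [Matrix.of_apply, hPs]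
  have h5 : (P * G p).trace = ∑ i, ∑ j, P i j * G p i j := by
    rw [Matrix.trace, Finset.sum_comm]
    refine Finset.sum_congr rfl fun i _ => ?_
    rw [Matrix.diag_apply, Matrix.mul_apply]
    refine Finset.sum_congr rfl fun j _ => ?_
    rw [hPs]
  rw [Matrix.mul_add, Matrix.mul_smul, Matrix.mul_smul, Matrix.mul_one, Matrix.mul_add,
    Matrix.trace_add, Matrix.trace_smul, Matrix.trace_smul, Matrix.trace_add, h2, h1, h3, h4, h5,
    smul_eq_mul, smul_eq_mul, Finset.mul_sum]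
  have h6 : ∑ i, ∑ j, P i j * (ricci G i j p + lam * G p i j) =
      ∑ i, ∑ j, P i j * ricci G i j p + ∑ i, lam * ∑ j, P i j * G p i j := by
    rw [← Finset.sum_add_distrib]
    refine Finset.sum_congr rfl fun i _ => ?_
    rw [Finset.mul_sum, ← Finset.sum_add_distrib]
    refine Finset.sum_congr rfl fun j _ => ?_
    ring
  rw [h6]
  ring

theorem rr_lowerP (hG : IsMetricOn U G) (hp : p ∈ U) (hε : 0 < ε) (hS : S.PosDef)
    (hSS : ∀ a b, (S * S) a b = ip G (u a) (u b) p + if a = b then ε else 0)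
    (hRic : ∀ v : Fin n → ℝ, -lam * ∑ i, ∑ j, G p i j * v i * v j ≤
      ∑ i, ∑ j, ricci G i j p * v i * v j)
    (hP : P.PosSemidef)
    (hPu : ∀ ξ : Fin n → ℝ, ∑ i, ∑ j, G p i j * (P *ᵥ ξ) i * (P *ᵥ ξ) j ≤
      ∑ a, (∑ i, grad G (u a) i p * ξ i) ^ 2) :
    ∑ i, ∑ j, P i j * (ricci G i j p + lam * G p i j) - Real.sqrt ε * (scal G p + n * lam) ≤
      ∑ a, ∑ b, S⁻¹ a b * (rr G (u a) (u b) p + lam * ip G (u a) (u b) p) := by
  obtain ⟨E, hE, hEE⟩ := pt_frame hG hp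
  have hSS' := pt_SS hE hEE hSS
  have hK := pt_K hG hp hE hEE hRic
  have hEu : IsUnit E.det := hE.det_pos.ne'.isUnit
  have hEt : Eᵀ = E := E_symm hE
  have hFt : (E⁻¹)ᵀ = E⁻¹ := E_symm hE.inv
  have hPt : Pᵀ = P := by
    have h := hP.isHermitian
    rwa [Matrix.IsHermitian, conjTranspose_eq_transpose_of_trivial] at h
  have hGF : G p = E⁻¹ * E⁻¹ := by
    rw [← Matrix.mul_inv_rev, hEE, Matrix.nonsing_inv_nonsing_inv _ (det_pos hG hp).ne'.isUnit]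
  have hP' : (E⁻¹ * P * E⁻¹).PosSemidef := by
    have h := hP.mul_mul_conjTranspose_same (E⁻¹)
    rwa [conjTranspose_eq_transpose_of_trivial, hFt] at h
  have hB : ∀ v : Fin n → ℝ, ((E⁻¹ * P * E⁻¹) *ᵥ v) ⬝ᵥ ((E⁻¹ * P * E⁻¹) *ᵥ v) ≤
      (Bm E u p *ᵥ v) ⬝ᵥ (Bm E u p *ᵥ v) := by
    intro v
    have h5 := hPu (E⁻¹ *ᵥ v)
    have h3 : ∑ i, ∑ j, G p i j * (P *ᵥ (E⁻¹ *ᵥ v)) i * (P *ᵥ (E⁻¹ *ᵥ v)) j =
        ((E⁻¹ * P * E⁻¹) *ᵥ v) ⬝ᵥ ((E⁻¹ * P * E⁻¹) *ᵥ v) := by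
      rw [← pt_dot (G p) (P *ᵥ (E⁻¹ *ᵥ v)), hGF, ← Matrix.mulVec_mulVec,
        Matrix.dotProduct_mulVec _ E⁻¹, ← Matrix.mulVec_transpose, hFt, ← Matrix.mulVec_mulVec,
        ← Matrix.mulVec_mulVec]
    rw [h3] at h5
    refine h5.trans (le_of_eq ?_)
    rw [dotProduct]
    refine Finset.sum_congr rfl fun a _ => ?_
    rw [← sq]
    congr 1
    have h6 : ∑ i, grad G (u a) i p * (E⁻¹ *ᵥ v) i = ((G p)⁻¹ *ᵥ Dv (u a) p) ⬝ᵥ (E⁻¹ *ᵥ v) := rfl
    have h7 : (Bm E u p *ᵥ v) a = (E *ᵥ Dv (u a) p) ⬝ᵥ v := by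
      rw [← Bm_row hE a]
      rfl
    rw [h6, h7, ← hEE, ← Matrix.mulVec_mulVec, Matrix.dotProduct_mulVec _ E⁻¹,
      ← Matrix.mulVec_transpose, hFt, Matrix.mulVec_mulVec, Matrix.nonsing_inv_mul _ hEu,
      Matrix.one_mulVec]
  have h6 := HC.alg_low hε hP' hS hSS' hK hB
  rw [pt_Ktrace hE hEE, pt_PK hG hp hE hEE hPt] at h6
  refine h6.trans (le_of_eq ?_)
  have h7 : ∑ a, ∑ b, S⁻¹ a b * (rr G (u a) (u b) p + lam * ip G (u a) (u b) p) =
      (S⁻¹ * (Bm E u p * Rm E G p * (Bm E u p)ᵀ + lam • (Bm E u p * (Bm E u p)ᵀ))).trace := by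
    rw [← pt_trace hS]
    refine Finset.sum_congr rfl fun a _ => Finset.sum_congr rfl fun b _ => ?_
    rw [frame_rr hE hEE, ← frame_ip hE hEE, Matrix.add_apply, Matrix.smul_apply, smul_eq_mul]
  have hSt : (S⁻¹)ᵀ = S⁻¹ := by
    ext i j
    rw [Matrix.transpose_apply, pt_inv_symm hS]
  have h8 : (S⁻¹ * (Bm E u p * (Rm E G p)ᵀ * (Bm E u p)ᵀ)).trace =
      (S⁻¹ * (Bm E u p * Rm E G p * (Bm E u p)ᵀ)).trace := by
    rw [← Matrix.trace_transpose, Matrix.transpose_mul, hSt, Matrix.trace_mul_comm,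
      Matrix.transpose_mul, Matrix.transpose_mul, Matrix.transpose_transpose,
      Matrix.transpose_transpose, Matrix.mul_assoc]
  rw [h7]
  simp only [Matrix.mul_add, Matrix.add_mul, Matrix.mul_smul, Matrix.smul_mul, Matrix.mul_one,
    Matrix.trace_add, Matrix.trace_smul, h8, smul_add, smul_eq_mul]
  ring

end

end Pool.Agent.Helper73.HC
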