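import Pool.Agent.Helper73.HB.Fin
import Pool.Agent.Helper73.HC.Point

/-! # The curvature bound with a matrix weight (HC-3) -/

namespace Pool.Agent.Helper73.HC

open scoped ContDiff Topology NNReal ENNReal
open Pool.Agent.Helper49.Ric Pool.Agent.Helper73.HB MeasureTheory Filter

noncomputable section

variable {n N : ℕ} {U : Set (Fin n → ℝ)} {G : (Fin n → ℝ) → Matrix (Fin n) (Fin n) ℝ}
  {u : Fin N → (Fin n → ℝ) → ℝ} {lam A ε : ℝ}

theorem sqrt_tendsto (a b : ℝ) :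
    Tendsto (fun k : ℕ => a - Real.sqrt (1 / ((k : ℝ) + 1)) * b) atTop (𝓝 a) := by
  have h1 : Tendsto (fun k : ℕ => 1 / ((k : ℝ) + 1)) atTop (𝓝 0) :=
    tendsto_one_div_add_atTop_nhds_zero_nat
  have h2 := (Real.continuous_sqrt.tendsto _).comp h1
  rw [Real.sqrt_zero] at h2
  have h3 : Tendsto (fun k : ℕ => a - Real.sqrt (1 / ((k : ℝ) + 1)) * b) atTop (𝓝 (a - 0 * b)) :=
    tendsto_const_nhds.sub (h2.mul_const b)
  simpa using h3

/-- the bound with two cutoff functions of slope `s` -/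
theorem main_boundP_s {Ω : Set (Fin n → ℝ)} (hΩ : IsOpen Ω) (hG : IsMetricOn Ω G)
    (hlam : 0 ≤ lam) {x : Fin n → ℝ} {r R s : ℝ} (hr : 0 < r) (hs : 0 < s) (hrR : r + 2 / s < R)
    {K : Set (Fin n → ℝ)} (hK : IsCompact K) (hKΩ : K ⊆ Ω)
    (hB : gball Ω G x R ⊆ K)
    (hRic : ∀ p ∈ gball Ω G x R, ∀ v : Fin n → ℝ, -lam * ∑ i, ∑ j, G p i j * v i * v j ≤
      ∑ i, ∑ j, ricci G i j p * v i * v j)
    (hu : ∀ a, ∀ p ∈ gball Ω G x R, ContDiffAt ℝ ∞ (u a) p)
    (hA : 0 ≤ A)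
    (h0 : ∀ a, ∀ p ∈ gball Ω G x R, ip G (lap G (u a)) (lap G (u a)) p ≤ A ^ 2)
    (h1 : ∀ a, ∀ p ∈ gball Ω G x R, ip G (u a) (u a) p ≤ 1)
    {P : (Fin n → ℝ) → Matrix (Fin n) (Fin n) ℝ} (hPm : ∀ i j, Measurable fun p => P p i j)
    (hP : ∀ p ∈ gball Ω G x r, (P p).PosSemidef)
    (hPu : ∀ p ∈ gball Ω G x r, ∀ ξ : Fin n → ℝ,
      ∑ i, ∑ j, G p i j * (P p).mulVec ξ i * (P p).mulVec ξ j ≤
        ∑ a, (∑ i, grad G (u a) i p * ξ i) ^ 2) :
    ∫⁻ p in gball Ω G x r, ENNReal.ofReal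
        ((∑ i, ∑ j, P p i j * (ricci G i j p + lam * G p i j)) * dens G p) ≤
      ENNReal.ofReal (N * (2 * s ^ 2 + 3 / 2 * (lam + A))) *
        ∫⁻ p in gball Ω G x R, ENNReal.ofReal (dens G p) := by
  classical
  set U := gball Ω G x R with hUdef
  have hs1 : 0 < 1 / s := by positivity
  have hs2 : 2 / s = 1 / s + 1 / s := by ring
  have hUo : IsOpen U := isOpen_gball hΩ hG
  have hUΩ : U ⊆ Ω := gball_subset
  have hGU : IsMetricOn U G :=
    ⟨fun p hp => hG.smooth p (hUΩ hp), fun p hp => hG.symm p (hUΩ hp),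
      fun p hp => hG.pos p (hUΩ hp)⟩
  have hB1 : gball Ω G x r ⊆ U := gball_mono (by linarith)
  have hB1o : IsOpen (gball Ω G x r) := isOpen_gball hΩ hG
  have hS : Setup U G lam A u := ⟨hUo, hGU, hlam, hRic, hu, hA, h0, h1⟩
  obtain ⟨η₁, L₁, a1, a2, a3, a4, a5, a6, a7, a8⟩ :=
    exists_cutoff (r₁ := r) (r₂ := r + 1 / s) hΩ hG hK hKΩ hB hr (by linarith) (by linarith)
  obtain ⟨η₂, L₂, b1, b2, b3, b4, b5, b6, b7, b8⟩ :=
    exists_cutoff (r₁ := r + 1 / s) (r₂ := r + 2 / s) hΩ hG hK hKΩ hB (by linarith)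
      (by linarith) hrR
  have es1 : (1 / (r + 1 / s - r)) ^ 2 = s ^ 2 := by
    rw [add_sub_cancel_left, one_div_one_div]
  have es2 : (1 / (r + 2 / s - (r + 1 / s))) ^ 2 = s ^ 2 := by
    have : r + 2 / s - (r + 1 / s) = 1 / s := by rw [hs2]; ring
    rw [this, one_div_one_div]
  rw [es1] at a8
  rw [es2] at b8
  have c1 : IsCut U G s η₁ := ⟨⟨L₁, a1⟩, a2, a3, a4, a5, by
    filter_upwards [a8] with p hp h using hp (hUΩ h)⟩
  have c2 : IsCut U G s η₂ := ⟨⟨L₂, b1⟩, b2, b3, b4, b5, by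
    filter_upwards [b8] with p hp h using hp (hUΩ h)⟩
  have h12 : ∀ p, η₁ p ≠ 0 → η₂ p = 1 := by
    intro p hp
    apply b6
    by_contra hcon
    exact hp (a7 p hcon)
  -- the bound for every ε
  have step : ∀ ε : ℝ, 0 < ε →
      ∫⁻ p in gball Ω G x r, ENNReal.ofReal
        ((∑ i, ∑ j, P p i j * (ricci G i j p + lam * G p i j) -
          Real.sqrt ε * (scal G p + n * lam)) * dens G p) ≤
      ENNReal.ofReal (N * (2 * s ^ 2 + 3 / 2 * (lam + A))) *
        ∫⁻ p in U, ENNReal.ofReal (dens G p) := by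
    intro ε hε
    obtain ⟨S, hSp, hSS⟩ := exists_S (u := u) hGU hε
    obtain ⟨hint, hle⟩ := energy_two hS c1 c2 h12 hε hSp hSS
    set f : (Fin n → ℝ) → ℝ := fun p => η₁ p * ((∑ a, ∑ b, (S p)⁻¹ a b *
        (rr G (u a) (u b) p + lam * ip G (u a) (u b) p)) * dens G p) with hf
    have hf0 : ∀ p, 0 ≤ f p := by
      intro p
      by_cases hp : p ∈ tsupport η₁
      · have hpU := a3 hp
        have hr := rr_lower (σ := 0) hGU hpU hε le_rfl (hSp p hpU) (hSS p hpU) (hRic p hpU) (by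
          intro v
          rw [zero_pow (by norm_num), zero_mul]
          exact Finset.sum_nonneg fun a _ => sq_nonneg _)
        rw [zero_pow (by norm_num), zero_div, zero_mul] at hr
        exact mul_nonneg (a4 p) (mul_nonneg hr (dens_pos hGU hpU).le)
      · rw [hf]
        simp only [image_eq_zero_of_notMem_tsupport hp, zero_mul, le_refl]
    have e1 : ∫⁻ p in gball Ω G x r, ENNReal.ofReal
        ((∑ i, ∑ j, P p i j * (ricci G i j p + lam * G p i j) -
          Real.sqrt ε * (scal G p + n * lam)) * dens G p) ≤ ∫⁻ p in gball Ω G x r, ENNReal.ofReal (f p) := by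
      apply setLIntegral_mono' hB1o.measurableSet
      intro p hp
      apply ENNReal.ofReal_le_ofReal
      have hpU := hB1 hp
      have hr := rr_lowerP hGU hpU hε (hSp p hpU) (hSS p hpU) (hRic p hpU) (hP p hp) (hPu p hp)
      rw [hf]
      simp only
      rw [a6 p hp, one_mul]
      exact mul_le_mul_of_nonneg_right hr (dens_pos hGU hpU).le
    have e2 : ∫⁻ p in gball Ω G x r, ENNReal.ofReal (f p) ≤ ∫⁻ p, ENNReal.ofReal (f p) :=
      setLIntegral_le_lintegral _ _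
    have e3 : ∫⁻ p, ENNReal.ofReal (f p) = ENNReal.ofReal (∫ p, f p) :=
      (ofReal_integral_eq_lintegral_ofReal hint (Eventually.of_forall hf0)).symm
    have e4 : ENNReal.ofReal (∫ p, f p) ≤
        ENNReal.ofReal (N * (2 * s ^ 2 + 3 / 2 * (lam + A)) * mass G (tsupport η₂)) :=
      ENNReal.ofReal_le_ofReal hle
    have e5 : ENNReal.ofReal (N * (2 * s ^ 2 + 3 / 2 * (lam + A)) * mass G (tsupport η₂)) =
        ENNReal.ofReal (N * (2 * s ^ 2 + 3 / 2 * (lam + A))) *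
          ENNReal.ofReal (mass G (tsupport η₂)) := ENNReal.ofReal_mul (by positivity)
    have e6 : ENNReal.ofReal (mass G (tsupport η₂)) ≤ ∫⁻ p in U, ENNReal.ofReal (dens G p) := by
      unfold mass
      rw [ofReal_integral_eq_lintegral_ofReal (integrableOn_dens hGU c2)]
      · exact lintegral_mono_set b3
      · rw [Filter.EventuallyLE, ae_restrict_iff' (isClosed_tsupport _).measurableSet]
        exact Eventually.of_forall fun p hp => (dens_pos hGU (b3 hp)).le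
    calc _ ≤ _ := e1
      _ ≤ _ := e2
      _ = _ := e3
      _ ≤ _ := e4
      _ = _ := e5
      _ ≤ _ := mul_le_mul_right e6 _
  -- Fatou
  have hcont : ContinuousOn (fun p => scal G p + n * lam) (gball Ω G x r) := by
    intro p hp
    exact ((smooth_scal hGU (hB1 hp)).add contDiffAt_const).continuousAt.continuousWithinAt
  have hcd : ContinuousOn (dens G) (gball Ω G x r) := by
    intro p hp
    exact (smooth_dens hGU (hB1 hp)).continuousAt.continuousWithinAt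
  have hcr : ∀ i j, ContinuousOn (fun p => ricci G i j p + lam * G p i j) (gball Ω G x r) := by
    intro i j p hp
    exact ((smooth_ricci hGU (hB1 hp) i j).add
      (contDiffAt_const.mul (hGU.smooth p (hB1 hp) i j))).continuousAt.continuousWithinAt
  have hmeas : ∀ k : ℕ, AEMeasurable (fun p => ENNReal.ofReal
      ((∑ i, ∑ j, P p i j * (ricci G i j p + lam * G p i j) -
        Real.sqrt (1 / ((k : ℝ) + 1)) * (scal G p + n * lam)) * dens G p))
      (volume.restrict (gball Ω G x r)) := by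
    intro k
    apply AEMeasurable.ennreal_ofReal
    refine AEMeasurable.mul ?_ (hcd.aemeasurable hB1o.measurableSet)
    refine AEMeasurable.sub ?_ ((hcont.aemeasurable hB1o.measurableSet).const_mul _)
    refine Finset.aemeasurable_fun_sum _ fun i _ => Finset.aemeasurable_fun_sum _ fun j _ => ?_
    exact (hPm i j).aemeasurable.mul ((hcr i j).aemeasurable hB1o.measurableSet)
  have hlim : ∀ p ∈ gball Ω G x r, ENNReal.ofReal
      ((∑ i, ∑ j, P p i j * (ricci G i j p + lam * G p i j)) * dens G p) =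
      liminf (fun k : ℕ => ENNReal.ofReal
      ((∑ i, ∑ j, P p i j * (ricci G i j p + lam * G p i j) -
        Real.sqrt (1 / ((k : ℝ) + 1)) * (scal G p + n * lam)) * dens G p)) atTop := by
    intro p hp
    symm
    apply Tendsto.liminf_eq
    apply ENNReal.tendsto_ofReal
    exact (sqrt_tendsto _ _).mul_const _
  rw [setLIntegral_congr_fun hB1o.measurableSet hlim]
  refine (lintegral_liminf_le' hmeas).trans ?_
  refine liminf_le_of_frequently_le' ?_
  exact Frequently.of_forall fun k => step _ (by positivity)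

theorem main_boundP {Ω : Set (Fin n → ℝ)} (hΩ : IsOpen Ω) (hG : IsMetricOn Ω G)
    (hlam : 0 ≤ lam) {x : Fin n → ℝ} {r R : ℝ} (hr : 0 < r) (hrR : r < R)
    {K : Set (Fin n → ℝ)} (hK : IsCompact K) (hKΩ : K ⊆ Ω)
    (hB : gball Ω G x R ⊆ K)
    (hRic : ∀ p ∈ gball Ω G x R, ∀ v : Fin n → ℝ, -lam * ∑ i, ∑ j, G p i j * v i * v j ≤
      ∑ i, ∑ j, ricci G i j p * v i * v j)
    (hu : ∀ a, ∀ p ∈ gball Ω G x R, ContDiffAt ℝ ∞ (u a) p)
    (hA : 0 ≤ A)
    (h0 : ∀ a, ∀ p ∈ gball Ω G x R, ip G (lap G (u a)) (lap G (u a)) p ≤ A ^ 2)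
    (h1 : ∀ a, ∀ p ∈ gball Ω G x R, ip G (u a) (u a) p ≤ 1)
    {P : (Fin n → ℝ) → Matrix (Fin n) (Fin n) ℝ} (hPm : ∀ i j, Measurable fun p => P p i j)
    (hP : ∀ p ∈ gball Ω G x r, (P p).PosSemidef)
    (hPu : ∀ p ∈ gball Ω G x r, ∀ ξ : Fin n → ℝ,
      ∑ i, ∑ j, G p i j * (P p).mulVec ξ i * (P p).mulVec ξ j ≤
        ∑ a, (∑ i, grad G (u a) i p * ξ i) ^ 2) :
    ∫⁻ p in gball Ω G x r, ENNReal.ofReal
        ((∑ i, ∑ j, P p i j * (ricci G i j p + lam * G p i j)) * dens G p) ≤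
      ENNReal.ofReal (N * (8 / (R - r) ^ 2 + 3 / 2 * (lam + A))) *
        ∫⁻ p in gball Ω G x R, ENNReal.ofReal (dens G p) := by
  have hd : 0 < R - r := by linarith
  have hs0 : 0 < 2 / (R - r) := by positivity
  have hfin : ∫⁻ p in gball Ω G x R, ENNReal.ofReal (dens G p) ≠ ⊤ :=
    (vol_lt_top hG hK hKΩ hB).ne
  have hlim : Tendsto (fun s : ℝ => ENNReal.ofReal (N * (2 * s ^ 2 + 3 / 2 * (lam + A))) *
      ∫⁻ p in gball Ω G x R, ENNReal.ofReal (dens G p)) (𝓝[>] (2 / (R - r)))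
      (𝓝 (ENNReal.ofReal (N * (2 * (2 / (R - r)) ^ 2 + 3 / 2 * (lam + A))) *
      ∫⁻ p in gball Ω G x R, ENNReal.ofReal (dens G p))) := by
    apply ENNReal.Tendsto.mul_const _ (Or.inr hfin)
    apply ENNReal.tendsto_ofReal
    have hc : Continuous (fun s : ℝ => (N : ℝ) * (2 * s ^ 2 + 3 / 2 * (lam + A))) := by fun_prop
    exact hc.continuousAt.tendsto.mono_left nhdsWithin_le_nhds
  have e1 : 2 * (2 / (R - r)) ^ 2 = 8 / (R - r) ^ 2 := by
    rw [div_pow]; ring
  rw [e1] at hlim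
  refine ge_of_tendsto hlim ?_
  filter_upwards [self_mem_nhdsWithin] with s hs
  have hs' : 2 / (R - r) < s := hs
  have hs1 : 0 < s := hs0.trans hs'
  refine main_boundP_s hΩ hG hlam hr hs1 ?_ hK hKΩ hB hRic hu hA h0 h1 hPm hP hPu
  have h2 : 2 / s < R - r := by
    rw [div_lt_iff₀ hs1]
    rw [div_lt_iff₀ hd] at hs'
    linarith
  linarith

end

end Pool.Agent.Helper73.HC
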